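import Pool.Agent.MP_fcd29e_an.H31.Spec3
import Pool.Agent.MP_fcd29e_an.H4.EC

/-!
Extension of a convolution across the boundary, on the shell.
-/

set_option autoImplicit false

open MeasureTheory Complex Set Filter Topology Metric Pool.Agent.MP_fcd29e_an.H81
  Pool.Agent.MP_fcd29e_an.H31
open scoped ContDiff ComplexConjugate ENNReal NNReal FourierTransform SchwartzMap

namespace Pool.Agent.MP_fcd29e_an.H38

noncomputable section

variable {N : ℕ}

/-- The kernel with the singularity cut out at scale `u^{-1/2}`. -/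
def Fc (K : E N → ℂ) (u : ℝ) (y : E N) : ℂ := (cut (u * ‖y‖ ^ 2) : ℂ) * K y

theorem cut_one {s : ℝ} (h : 2 ≤ s) : cut s = 1 :=
  Real.smoothTransition.one_of_one_le (by linarith)

theorem cut_zero {s : ℝ} (h : s ≤ 1) : cut s = 0 :=
  Real.smoothTransition.zero_of_nonpos (by linarith)

theorem fc_one (K : E N → ℂ) {u : ℝ} {y : E N} (h : 2 ≤ u * ‖y‖ ^ 2) : Fc K u y = K y := by
  simp [Fc, cut_one h]

theorem fc_zero (K : E N → ℂ) (u : ℝ) : Fc K u 0 = 0 := by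
  simp [Fc, cut_zero]

theorem fc_smooth {K : E N → ℂ} (hK : ContDiffOn ℝ ∞ K (E0 N)) (u : ℝ) :
    ContDiff ℝ ∞ (Fc K u) := by
  have hc : ContDiff ℝ ∞ fun y : E N => u * ‖y‖ ^ 2 :=
    contDiff_const.mul (contDiff_norm_sq ℝ)
  have h1 : ContDiff ℝ ∞ fun y : E N => (cut (u * ‖y‖ ^ 2) : ℂ) :=
    ofRealCLM.contDiff.comp (Real.smoothTransition.contDiff.comp (hc.sub contDiff_const))
  refine contDiff_iff_contDiffAt.2 fun y => ?_
  by_cases hy : y = 0
  · subst hy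
    have h2 : ∀ᶠ y : E N in 𝓝 0, u * ‖y‖ ^ 2 < 1 :=
      hc.continuous.continuousAt.eventually_lt continuousAt_const (by simp)
    refine (contDiffAt_const (c := (0 : ℂ))).congr_of_eventuallyEq ?_
    filter_upwards [h2] with y hy
    simp [Fc, cut_zero hy.le]
  · exact h1.contDiffAt.mul (hK.contDiffAt (isOpen_E0.mem_nhds hy))

theorem hom_real {K : E N → ℂ} {a b : ℤ} {d : ℕ} (hK : Hom (E0 N) a b K) (hd : a + b = -d)
    {t : ℝ} (ht : 0 < t) {y : E N} (hy : y ≠ 0) : K (t • y) = K y / (t ^ d : ℝ) := by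
  have ht' : (t : ℂ) ≠ 0 := ofReal_ne_zero.2 ht.ne'
  have h1 := hK t ht' y hy
  rw [Complex.coe_smul] at h1
  rw [h1, conj_ofReal, ← zpow_add₀ ht', hd, zpow_neg, zpow_natCast]
  push_cast
  ring

theorem fc_gd {K : E N → ℂ} {a b : ℤ} {d : ℕ} (hs : ContDiffOn ℝ ∞ K (E0 N))
    (hK : Hom (E0 N) a b K) (hd : a + b = -d) (h1 : 2 * N - 1 ≤ d) {u : ℝ} (hu : 1 ≤ u) :
    H4.Gd 1 (Fc K u) := by
  refine ⟨d, Fc K u, 1, h1, ⟨fc_smooth hs u, fun y hy t ht => ?_⟩, by funext y; simp⟩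
  have hy0 : y ≠ 0 := by rintro rfl; norm_num at hy
  have h2 : 2 ≤ ‖t • y‖ := by
    rw [norm_smul, Real.norm_of_nonneg (by linarith)]; nlinarith
  rw [fc_one K (by nlinarith), fc_one K (by nlinarith), hom_real hK hd (by linarith) hy0]

/-- The dyadic piece of the kernel. -/
def kp (K : E N → ℂ) (y : E N) : ℂ := Fc K 64 y - Fc K 16 y

theorem kp_tst {K : E N → ℂ} (hs : ContDiffOn ℝ ∞ K (E0 N)) : Tst (kp K) := by
  refine ⟨(fc_smooth hs 64).sub (fc_smooth hs 16), ?_⟩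
  refine HasCompactSupport.intro (isCompact_closedBall (0 : E N) 1) fun y hy => ?_
  have h1 : 1 < ‖y‖ := by simpa using hy
  rw [kp, fc_one K (by nlinarith), fc_one K (by nlinarith), sub_self]

theorem dy_pos (j : ℕ) : 0 < dy j := by unfold dy; positivity

theorem dy_le (j : ℕ) : dy j ≤ 1 := inv_le_one_of_one_le₀ (one_le_pow₀ (by norm_num))

theorem dy_sq (j : ℕ) : dy j ^ 2 * 4 ^ j = 1 := by
  have : (4 : ℝ) ^ j = (2 ^ j) ^ 2 := by rw [← pow_mul, mul_comm, pow_mul]; norm_num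
  rw [this, dy, ← mul_pow, inv_mul_cancel₀ (by positivity), one_pow]

theorem kp_scale {K : E N → ℂ} {a b : ℤ} {d : ℕ} (hK : Hom (E0 N) a b K) (hd : a + b = -d)
    (h2 : d ≤ 2 * N) (j : ℕ) (y : E N) :
    Sc (dy j) (kp K) y * ((dy j ^ (2 * N - d) : ℝ) : ℂ) =
      Fc K (4 ^ (j + 1) * 16) y - Fc K (4 ^ j * 16) y := by
  by_cases hy : y = 0
  · subst hy; simp [Sc, kp, fc_zero]
  have ht := dy_pos j
  have hn : ‖(dy j)⁻¹ • y‖ ^ 2 = 4 ^ j * ‖y‖ ^ 2 := by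
    rw [norm_smul, Real.norm_of_nonneg (inv_pos.2 ht).le, mul_pow, inv_pow,
      eq_inv_of_mul_eq_one_right (dy_sq j)]
  have e : dy j ^ (2 * N) = dy j ^ d * dy j ^ (2 * N - d) := by
    rw [← pow_add]; congr 1; omega
  have ht' : ((dy j : ℝ) : ℂ) ≠ 0 := ofReal_ne_zero.2 ht.ne'
  simp only [Sc, kp, Fc, hn, hom_real hK hd (inv_pos.2 ht) hy, e]
  rw [show (64 : ℝ) * (4 ^ j * ‖y‖ ^ 2) = 4 ^ (j + 1) * 16 * ‖y‖ ^ 2 by ring,
    show (16 : ℝ) * (4 ^ j * ‖y‖ ^ 2) = 4 ^ j * 16 * ‖y‖ ^ 2 by ring]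
  generalize cut (4 ^ (j + 1) * 16 * ‖y‖ ^ 2) = c1
  generalize cut (4 ^ j * 16 * ‖y‖ ^ 2) = c2
  push_cast
  rw [inv_pow]
  field_simp

/-- A shell that contains a neighbourhood of `Sh`. -/
def K1 (N : ℕ) : Set (E N) := {y | 1 / 2 ≤ ‖y‖} ∩ closedBall 0 (5 / 2)

theorem k1_compact : IsCompact (K1 N) :=
  (isCompact_closedBall _ _).inter_left (isClosed_le continuous_const continuous_norm)

theorem k1_zero : (0 : E N) ∉ K1 N := fun h => by
  have : 1 / 2 ≤ ‖(0 : E N)‖ := h.1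
  rw [norm_zero] at this
  linarith

theorem k1_mem {x y : E N} (hx : x ∈ Sh N) (h : ‖x - y‖ ≤ 1 / 2) : y ∈ K1 N := by
  have h1 : 1 ≤ ‖x‖ := by nlinarith [hx.1, norm_nonneg x]
  have h2 : ‖x‖ ≤ 2 := by nlinarith [hx.2, norm_nonneg x]
  refine ⟨?_, ?_⟩
  · have := norm_sub_norm_le x y
    show 1 / 2 ≤ ‖y‖
    linarith
  · rw [mem_closedBall_zero_iff]
    have := norm_sub_norm_le y x
    rw [norm_sub_rev] at this
    linarith

theorem summ (L : Lv2) {ρ : E N → ℝ} (hρ : Dom ρ) {s : ℝ} (hs : 0 < s) {G : E N → ℂ}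
    (hG : WLs ρ s G) {A : ℝ} (hA : 0 < A) (e : ℕ) :
    ∑' j, ENNReal.ofReal (dy j ^ (-(2 * s))) *
      N2 (fun y => ((dy j ^ e : ℝ) : ℂ) * (K1 N ∩ {y | ρ y ≤ A * dy j}).indicator G y) < ⊤ := by
  obtain ⟨hOm, hOp, -, -, hm, -⟩ := L.c1 N ρ hρ
  obtain ⟨C, hC⟩ := L.geo (2 * s) (by linarith)
  have hS : ∀ j, MeasurableSet (K1 N ∩ {y | ρ y ≤ A * dy j}) := fun j =>
    k1_compact.measurableSet.inter (measurableSet_le hm measurable_const)
  have hGm : AEMeasurable (fun y => ENNReal.ofReal (‖G y‖ ^ 2)) volume :=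
    ENNReal.measurable_ofReal.comp_aemeasurable (hG.1.norm.aemeasurable.pow_const 2)
  have h1 : ∀ j, ENNReal.ofReal (dy j ^ (-(2 * s))) *
      N2 (fun y => ((dy j ^ e : ℝ) : ℂ) * (K1 N ∩ {y | ρ y ≤ A * dy j}).indicator G y) ≤
      ∫⁻ y, ENNReal.ofReal (dy j ^ (-(2 * s))) *
        (K1 N ∩ {y | ρ y ≤ A * dy j}).indicator (fun y => ENNReal.ofReal (‖G y‖ ^ 2)) y := by
    intro j
    rw [lintegral_const_mul' _ _ ENNReal.ofReal_ne_top]
    refine mul_le_mul_right (lintegral_mono fun y => ?_) _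
    by_cases hy : y ∈ K1 N ∩ {y | ρ y ≤ A * dy j}
    · simp only [indicator_of_mem hy]
      refine ENNReal.ofReal_le_ofReal (pow_le_pow_left₀ (norm_nonneg _) ?_ 2)
      rw [norm_mul, Complex.norm_real, Real.norm_of_nonneg (pow_nonneg (dy_pos j).le e)]
      exact mul_le_of_le_one_left (norm_nonneg _) (pow_le_one₀ (dy_pos j).le (dy_le j))
    · simp [indicator_of_notMem hy]
  refine (ENNReal.tsum_le_tsum h1).trans_lt ?_
  rw [← lintegral_tsum fun j => (hGm.indicator (hS j)).const_mul _]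
  have hT : MeasurableSet (Op ρ ∩ K1 N) := hOp.measurableSet.inter k1_compact.measurableSet
  have h2 := ((memLp_two_iff_integrable_sq_norm
    (hG.2.2 _ k1_compact k1_zero).1).1 (hG.2.2 _ k1_compact k1_zero)).lintegral_lt_top
  refine lt_of_le_of_lt (b := ∫⁻ y, (C * ENNReal.ofReal (A ^ (2 * s))) * (Op ρ ∩ K1 N).indicator
    (fun y => ENNReal.ofReal (‖G y / ((ρ y ^ s : ℝ) : ℂ)‖ ^ 2)) y) (lintegral_mono_ae ?_) ?_
  · filter_upwards [hG.2.1] with y hy
    by_cases hr : ρ y ≤ 0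
    · simp [indicator, hy hr]
    by_cases hk : y ∈ K1 N
    swap
    · simp [indicator, hk]
    push Not at hr
    have hy0 : y ≠ 0 := fun h => k1_zero (h ▸ hk)
    rw [indicator_of_mem (show y ∈ Op ρ ∩ K1 N from ⟨⟨hy0, hr⟩, hk⟩)]
    have h3 := (hC (ρ y / A) (div_pos hr hA)).2
    have h4 : ∀ j, ENNReal.ofReal (dy j ^ (-(2 * s))) *
        (K1 N ∩ {y | ρ y ≤ A * dy j}).indicator (fun y => ENNReal.ofReal (‖G y‖ ^ 2)) y =
        (if ρ y / A ≤ dy j then ENNReal.ofReal (dy j ^ (-(2 * s))) else 0) *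
          ENNReal.ofReal (‖G y‖ ^ 2) := by
      intro j
      by_cases h5 : ρ y / A ≤ dy j
      · rw [if_pos h5, indicator_of_mem
          (show y ∈ K1 N ∩ {y | ρ y ≤ A * dy j} from ⟨hk, (div_le_iff₀' hA).1 h5⟩)]
      · rw [if_neg h5, indicator_of_notMem fun h => h5 ((div_le_iff₀' hA).2 h.2)]
        simp
    simp only [h4]
    rw [ENNReal.tsum_mul_right]
    refine (mul_le_mul_left h3 _).trans (le_of_eq ?_)
    rw [mul_assoc, mul_assoc, ← ENNReal.ofReal_mul (by positivity),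
      ← ENNReal.ofReal_mul (by positivity)]
    congr 2
    have h6 : (ρ y ^ s) ^ 2 = ρ y ^ (2 * s) := by
      rw [← Real.rpow_natCast, ← Real.rpow_mul hr.le, mul_comm]; norm_num
    rw [norm_div, Complex.norm_real, Real.norm_of_nonneg (by positivity), div_pow, h6,
      Real.rpow_neg (by positivity), Real.div_rpow hr.le hA.le]
    have : 0 < ρ y ^ (2 * s) := by positivity
    have : 0 < A ^ (2 * s) := by positivity
    field_simp
  · rw [lintegral_const_mul' _ _ (ENNReal.mul_ne_top ENNReal.coe_ne_top ENNReal.ofReal_ne_top),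
      lintegral_indicator hT]
    exact ENNReal.mul_lt_top (ENNReal.mul_lt_top ENNReal.coe_lt_top ENNReal.ofReal_lt_top) h2

theorem tka (L : Lv2) (h : StmtSUM) : StmtTKa := by
  intro N hN ρ hρ s hs K G a' b' hKs hKh h1 h2 hG hD
  obtain ⟨d, hd⟩ : ∃ d : ℕ, a' + b' = -d := ⟨(-(a' + b')).toNat, by omega⟩
  have hd1 : 2 * N - 1 ≤ d := by omega
  have hd2 : d ≤ 2 * N := by omega
  obtain ⟨-, -, -, -, hm, -, -, hL, -⟩ := L.c1 N ρ hρ
  obtain ⟨⟨A₀, hA₀⟩, -⟩ := hL _ k1_compact k1_zero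
  set A := |A₀| + 1 with hAdef
  have hA : 0 < A := by positivity
  have hlip : ∀ x ∈ K1 N, ∀ y ∈ K1 N, ρ y - ρ x ≤ A * ‖x - y‖ := fun x hx y hy => by
    refine (le_abs_self _).trans ((hA₀ x hx y hy).trans ?_)
    rw [norm_sub_rev]
    exact mul_le_mul_of_nonneg_right (by linarith [le_abs_self A₀]) (norm_nonneg _)
  obtain ⟨sb1, -, sb3, -, sb5, sb6⟩ := L.sbs N s hs.le
  set hh : ℕ → E N → ℂ := fun j y =>
    ((dy j ^ (2 * N - d) : ℝ) : ℂ) * (K1 N ∩ {y | ρ y ≤ A * dy j}).indicator G y with hhdef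
  have hS : ∀ j, MeasurableSet (K1 N ∩ {y | ρ y ≤ A * dy j}) := fun j =>
    k1_compact.measurableSet.inter (measurableSet_le hm measurable_const)
  have hl2 : ∀ j, MemLp (hh j) 2 volume := fun j => by
    have h3 : K1 N ∩ {y | ρ y ≤ A * dy j} ⊆ E0 N ∩ K1 N := fun y hy =>
      ⟨fun h0 => k1_zero (by rw [← mem_singleton_iff.1 h0]; exact hy.1), hy.1⟩
    have h4 : MemLp G 2 (volume.restrict (K1 N ∩ {y | ρ y ≤ A * dy j})) :=
      (sb6 ρ hρ G hG _ k1_compact k1_zero).mono_measure (Measure.restrict_mono h3 le_rfl)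
    exact ((memLp_indicator_iff_restrict (hS j)).2 h4).const_mul _
  have hU1 := (sb5 _ (h N s hs (kp K) hh (kp_tst hKs) hl2 (summ L hρ hs hG hA _))).1
  have hu : ∀ j : ℕ, (1 : ℝ) ≤ 4 ^ j * 16 := fun j => by
    have : (1 : ℝ) ≤ 4 ^ j := one_le_pow₀ (by norm_num)
    linarith
  have hgd : ∀ j : ℕ, H4.Gd 1 (Fc K (4 ^ j * 16)) := fun j => fc_gd hKs hKh hd hd1 (hu j)
  have hU2 : SobH s (Cv (Fc K (4 ^ 0 * 16)) G) :=
    sb3 _ (contDiff_infty.2 fun n => H4.far_smooth L.toLv0 hN one_pos hD n _ (hgd 0)).contDiffOn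
  refine ⟨_, ((sb1 _ hU1).2.1 _ hU2).1, fun x hx => ?_⟩
  have hx1 : x ∈ K1 N := k1_mem hx.2 (by simp)
  have hterm : ∀ j, Cv (Sc (dy j) (kp K)) (hh j) x =
      Cv (Fc K (4 ^ (j + 1) * 16)) G x - Cv (Fc K (4 ^ j * 16)) G x := by
    intro j
    rw [Cv, Cv, Cv, ← integral_sub (H4.far_int L.toLv0 hN one_pos (hgd (j + 1)) hD x)
      (H4.far_int L.toLv0 hN one_pos (hgd j) hD x)]
    refine integral_congr_ae (Eventually.of_forall fun y => ?_)
    simp only [hhdef]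
    rw [← mul_assoc, kp_scale hKh hd hd2, ← sub_mul]
    by_cases hy : ‖x - y‖ ≤ dy j / 2
    · have hy1 : y ∈ K1 N := k1_mem hx.2 (by linarith [dy_le j])
      have h3 := hlip x hx1 y hy1
      have h4 : A * ‖x - y‖ ≤ A * dy j :=
        mul_le_mul_of_nonneg_left (by linarith [dy_pos j]) hA.le
      rw [indicator_of_mem (show y ∈ K1 N ∩ {y | ρ y ≤ A * dy j} from
        ⟨hy1, by have := hx.1.2; show ρ y ≤ A * dy j; linarith⟩)]
    · push Not at hy
      have h3 : dy j ^ 2 / 4 ≤ ‖x - y‖ ^ 2 := by nlinarith [dy_pos j]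
      have h4 : (0 : ℝ) < 4 ^ j := by positivity
      have h5 : 4 ≤ 4 ^ j * 16 * ‖x - y‖ ^ 2 := by nlinarith [dy_sq j]
      rw [fc_one K (u := 4 ^ j * 16) (by linarith),
        fc_one K (u := 4 ^ (j + 1) * 16) (by rw [pow_succ]; linarith), sub_self, zero_mul,
        zero_mul]
  set δ := min (1 / 2) (-ρ x / A) with hδ
  have hδ0 : 0 < δ := lt_min (by norm_num) (div_pos (neg_pos.2 hx.1.2) hA)
  obtain ⟨J, hJ⟩ := pow_unbounded_of_one_lt (1 / δ ^ 2) (show (1 : ℝ) < 4 by norm_num)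
  have hfar : ∀ j, J ≤ j → Cv (Fc K (4 ^ j * 16)) G x = Cv K G x := by
    intro j hj
    refine integral_congr_ae ?_
    filter_upwards [hG.2.1] with y hy
    by_cases hr : ρ y ≤ 0
    · simp [hy hr]
    push Not at hr
    have h3 : δ ≤ ‖x - y‖ := by
      by_contra h4
      push Not at h4
      have h5 := hlip x hx1 y (k1_mem hx.2 (h4.le.trans (min_le_left _ _)))
      have h6 : ‖x - y‖ < -ρ x / A := h4.trans_le (min_le_right _ _)
      rw [lt_div_iff₀' hA] at h6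
      linarith
    have h4 : (4 : ℝ) ^ J ≤ 4 ^ j := pow_le_pow_right₀ (by norm_num) hj
    have h5 : 1 < 4 ^ j * δ ^ 2 := by
      rw [div_lt_iff₀ (by positivity)] at hJ
      nlinarith [sq_nonneg δ]
    have h6 : δ ^ 2 ≤ ‖x - y‖ ^ 2 := pow_le_pow_left₀ hδ0.le h3 2
    have h7 : (0 : ℝ) < 4 ^ j := by positivity
    rw [fc_one K (by nlinarith)]
  show (∑' j, Cv (Sc (dy j) (kp K)) (hh j) x) + Cv (Fc K (4 ^ 0 * 16)) G x = Cv K G x
  rw [tsum_eq_sum (s := Finset.range J) fun j hj => by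
    have hj' : J ≤ j := by simpa using hj
    rw [hterm, hfar _ hj', hfar _ (by omega), sub_self]]
  simp only [hterm]
  rw [Finset.sum_range_sub fun j => Cv (Fc K (4 ^ j * 16)) G x, hfar J le_rfl, sub_add_cancel]

end

end Pool.Agent.MP_fcd29e_an.H38
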